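import Pool.Agent.MTN.Stmts

/-! MTN, row TRP: change of the point. -/

set_option autoImplicit false

namespace Pool.Agent.MTN.H63

open Polynomial

/-- a bound for the coefficients of the translates -/
noncomputable def cst (m D : ℕ) : ℝ :=
  ∑ k ∈ Finset.Icc (-(D : ℤ)) D, ∑ i ∈ Finset.range (m + 1), ∑ n ∈ Finset.range (m + 1),
    |((((X - C k : ℤ[X]) ^ i).coeff n : ℤ) : ℝ)|

theorem le_cst (m D : ℕ) {k : ℤ} (hk : |k| ≤ D) {n : ℕ} (hn : n < m + 1) :
    ∑ i ∈ Finset.range (m + 1), |((((X - C k : ℤ[X]) ^ i).coeff n : ℤ) : ℝ)| ≤ cst m D := by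
  have h1 : k ∈ Finset.Icc (-(D : ℤ)) D := by
    rw [Finset.mem_Icc]
    exact abs_le.1 hk
  have h2 : ∑ i ∈ Finset.range (m + 1), |((((X - C k : ℤ[X]) ^ i).coeff n : ℤ) : ℝ)| ≤
      ∑ i ∈ Finset.range (m + 1), ∑ n ∈ Finset.range (m + 1),
        |((((X - C k : ℤ[X]) ^ i).coeff n : ℤ) : ℝ)| := by
    refine Finset.sum_le_sum fun i _ => ?_
    exact Finset.single_le_sum (f := fun n => |((((X - C k : ℤ[X]) ^ i).coeff n : ℤ) : ℝ)|)
      (fun _ _ => abs_nonneg _) (Finset.mem_range.2 hn)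
  refine h2.trans ?_
  exact Finset.single_le_sum (f := fun k : ℤ => ∑ i ∈ Finset.range (m + 1),
    ∑ n ∈ Finset.range (m + 1), |((((X - C k : ℤ[X]) ^ i).coeff n : ℤ) : ℝ)|)
    (fun _ _ => Finset.sum_nonneg fun _ _ => Finset.sum_nonneg fun _ _ => abs_nonneg _) h1

theorem cst_nonneg (m D : ℕ) : 0 ≤ cst m D :=
  Finset.sum_nonneg fun _ _ => Finset.sum_nonneg fun _ _ => Finset.sum_nonneg fun _ _ =>
    abs_nonneg _

theorem trp : TrpStmt := by
  refine ⟨?_, ?_⟩
  · intro m A D
    refine ⟨2 * D + cst m D * 2 ^ (A + 1), ?_⟩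
    rintro w ⟨f, hf0, hfm, hfc, hfw⟩ hw k hk
    have hc0 := cst_nonneg m D
    have hD0 : (0 : ℝ) ≤ D := Nat.cast_nonneg D
    have hp0 : (0 : ℝ) ≤ cst m D * 2 ^ (A + 1) := by positivity
    have hdeg : (f.comp (X - C k)).natDegree = f.natDegree := by
      rw [natDegree_comp, natDegree_X_sub_C, mul_one]
    refine ⟨f.comp (X - C k), ?_, ?_, ?_, ?_⟩
    · intro h
      apply hf0
      have h1 : (f.comp (X - C k)).comp (X + C k) = f := by
        rw [comp_assoc]
        simp
      rw [← h1, h, zero_comp]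
    · rw [hdeg]
      exact hfm
    · intro n
      -- the lower bound
      have hkR : |(k : ℝ)| ≤ D := by
        exact_mod_cast hk
      have hwk : ‖w‖ / 2 ≤ ‖w + k‖ := by
        have h1 : ‖w‖ ≤ ‖w + k‖ + ‖(k : ℂ)‖ := by
          have := norm_sub_le (w + k) (k : ℂ)
          rwa [add_sub_cancel_right] at this
        have h2 : ‖(k : ℂ)‖ = |(k : ℝ)| := by
          rw [← Complex.ofReal_intCast, Complex.norm_real, Real.norm_eq_abs]
        rw [h2] at h1
        linarith
      have hlow : cst m D * ‖w‖ ^ A ≤ ‖w + k‖ ^ (A + 1) := by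
        have h1 : (‖w‖ / 2) ^ (A + 1) ≤ ‖w + k‖ ^ (A + 1) :=
          pow_le_pow_left₀ (by positivity) hwk _
        have h2 : cst m D * 2 ^ (A + 1) ≤ ‖w‖ := by linarith
        refine le_trans ?_ h1
        rw [div_pow, le_div_iff₀ (by positivity), pow_succ ‖w‖ A]
        calc cst m D * ‖w‖ ^ A * 2 ^ (A + 1) = ‖w‖ ^ A * (cst m D * 2 ^ (A + 1)) := by ring
          _ ≤ ‖w‖ ^ A * ‖w‖ := mul_le_mul_of_nonneg_left h2 (by positivity)
      by_cases hn : n < m + 1
      · refine le_trans ?_ hlow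
        have hexp : (f.comp (X - C k)).coeff n =
            ∑ i ∈ Finset.range (m + 1), f.coeff i * ((X - C k : ℤ[X]) ^ i).coeff n := by
          rw [comp, eval₂_eq_sum_range' C (Nat.lt_succ_of_le hfm), finsetSum_coeff]
          refine Finset.sum_congr rfl fun i _ => ?_
          rw [coeff_C_mul]
        rw [hexp]
        push_cast
        calc |∑ i ∈ Finset.range (m + 1), (f.coeff i : ℝ) *
                ((((X - C k : ℤ[X]) ^ i).coeff n : ℤ) : ℝ)|
            ≤ ∑ i ∈ Finset.range (m + 1), |(f.coeff i : ℝ) *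
                ((((X - C k : ℤ[X]) ^ i).coeff n : ℤ) : ℝ)| := Finset.abs_sum_le_sum_abs _ _
          _ ≤ ∑ i ∈ Finset.range (m + 1), ‖w‖ ^ A *
                |((((X - C k : ℤ[X]) ^ i).coeff n : ℤ) : ℝ)| := by
              refine Finset.sum_le_sum fun i _ => ?_
              rw [abs_mul]
              exact mul_le_mul_of_nonneg_right (hfc i) (abs_nonneg _)
          _ = ‖w‖ ^ A * ∑ i ∈ Finset.range (m + 1),
                |((((X - C k : ℤ[X]) ^ i).coeff n : ℤ) : ℝ)| := by rw [Finset.mul_sum]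
          _ ≤ ‖w‖ ^ A * cst m D := mul_le_mul_of_nonneg_left (le_cst m D hk hn) (by positivity)
          _ = cst m D * ‖w‖ ^ A := mul_comm _ _
      · rw [coeff_eq_zero_of_natDegree_lt (by omega)]
        simp only [Int.cast_zero, abs_zero]
        positivity
    · rw [aeval_comp]
      simp [hfw]
  · intro n hn
    have hn1 : (1 : ℝ) ≤ n := by exact_mod_cast hn
    refine ⟨X - C (n : ℤ), X_sub_C_ne_zero _, (natDegree_X_sub_C _).le, ?_, ?_⟩
    · intro i
      rw [pow_one, Complex.norm_natCast]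
      rcases i with _ | _ | i
      · simp
      · simp [coeff_X, hn1]
      · have h1 : (X - C (n : ℤ) : ℤ[X]).coeff (i + 2) = 0 := by
          refine coeff_eq_zero_of_natDegree_lt ?_
          rw [natDegree_X_sub_C]
          omega
        rw [h1]
        simp
    · simp

end Pool.Agent.MTN.H63
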